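import Pool.Agent.R853.Obs.Core9

/-!
The free Schroedinger equation on `ℝ ^ d` is observable, in every time `T > 0`, from every uniformly
continuous relatively dense observation function.

Convention: Mathlib's Fourier transform is `𝓕 f ξ = ∫ exp (- 2 π i ⟨x, ξ⟩) f x dx`, so the Laplacian
is the multiplication by `- 4 π² |ξ|²` on the Fourier side, and `exp (- i t Δ)` is the multiplication
by `exp (4 π² i t |ξ|²)`.
-/

set_option autoImplicit false

open MeasureTheory FourierTransform Complex

namespace Pool.Agent.Results.MP_0a8f24_an.ObservabilityRelativelyDense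

section
variable (E : Type) [NormedAddCommGroup E] [InnerProductSpace ℝ E] [FiniteDimensional ℝ E]
  [MeasurableSpace E] [BorelSpace E]

/-- the Hilbert space `L²(E; ℂ)` (Lebesgue measure on the finite-dimensional Euclidean space `E`) -/
def L2 : Type := Lp ℂ 2 (volume : Measure E)

/-- the norm of `L²` -/
noncomputable instance l2norm : NormedAddCommGroup (L2 E) :=
  Lp.instNormedAddCommGroup (E := ℂ) (p := 2) (μ := (volume : Measure E))

/-- the inner product of `L²` -/
noncomputable instance l2inner : InnerProductSpace ℂ (L2 E) :=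
  L2.innerProductSpace (𝕜 := ℂ) (E := ℂ) (μ := (volume : Measure E))

/-- the Fourier transform on `L²`, a unitary operator -/
noncomputable def fourierEquiv : L2 E ≃ₗᵢ[ℂ] L2 E := Lp.fourierTransformₗᵢ E ℂ

variable {E}

/-- the function (defined almost everywhere) represented by an element of `L²` -/
noncomputable def fn (u : L2 E) : E → ℂ := ((show Lp ℂ 2 (volume : Measure E) from u) : E → ℂ)

/-- the class in `L²` of a square integrable function (zero if it is not square integrable) -/
noncomputable def cls (f : E → ℂ) : L2 E := by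
  classical
  exact if h : MemLp f 2 (volume : Measure E) then h.toLp f else (0 : L2 E)

/-- the Fourier transform on `L²` -/
noncomputable def fourierL2 (u : L2 E) : L2 E := fourierEquiv E u

/-- the inverse Fourier transform on `L²` -/
noncomputable def fourierInvL2 (u : L2 E) : L2 E := (fourierEquiv E).symm u

/-- the multiplier `exp (4 π² i t |ξ|²)` of `exp (- i t Δ)` -/
noncomputable def phase (t : ℝ) (ξ : E) : ℂ :=
  Complex.exp (((4 * Real.pi ^ 2 * t * ‖ξ‖ ^ 2 : ℝ) : ℂ) * I)

/-- the solution `u(t) = exp (- i t Δ) u₀` of `i u_t - Δ u = 0`, `u(0) = u₀` -/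
noncomputable def evolution (t : ℝ) (u₀ : L2 E) : L2 E :=
  fourierInvL2 (cls (fun ξ => phase t ξ * fn (fourierL2 u₀) ξ))

/-- observability from `a` in time `T` -/
def ObservableIn (a : E → ℝ) (T : ℝ) : Prop :=
  ∃ C : ℝ, 0 < C ∧ ∀ u₀ : L2 E,
    ‖u₀‖ ^ 2 ≤ C * ∫ t in (0 : ℝ)..T, ∫ x, (a x * ‖fn (evolution t u₀) x‖) ^ 2

end

/-- relative density: `∫_Q a ≥ η L ^ d` for every cube `Q` of side `L` (with sides parallel to the
axes) -/
def RelativelyDense {d : ℕ} (a : EuclideanSpace ℝ (Fin d) → ℝ) : Prop :=
  ∃ L η : ℝ, 0 < L ∧ 0 < η ∧ ∀ x : EuclideanSpace ℝ (Fin d),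
    η * L ^ d ≤ ∫ y in {y : EuclideanSpace ℝ (Fin d) | ∀ i, x i ≤ y i ∧ y i ≤ x i + L}, a y

/-- **Theorem.** In every dimension the free Schroedinger equation is observable, in every time
`T > 0`, from every uniformly continuous relatively dense `a : ℝ ^ d → [0, 1]`. -/
theorem result (d : ℕ) (a : EuclideanSpace ℝ (Fin d) → ℝ) (h0 : ∀ x, 0 ≤ a x) (h1 : ∀ x, a x ≤ 1)
    (hu : UniformContinuous a) (hd : RelativelyDense a) (T : ℝ) (hT : 0 < T) :
    ObservableIn a T := by
  obtain ⟨L, η, hL, hη, h⟩ := hd
  exact Pool.Agent.R853.Obs.main_uc a h0 h1 hu L η hL hη h T hT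

end Pool.Agent.Results.MP_0a8f24_an.ObservabilityRelativelyDense
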